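import Mathlib

/-!
Concentrators: bipartite graphs of left degree three in which all small sets expand.
-/

set_option autoImplicit false

namespace Pool.Agent.X223.KR

open Finset

theorem pow_le_three (j : ℕ) : j ^ j ≤ 3 ^ j * j.factorial := by
  have h1 := Real.pow_div_factorial_le_exp (j : ℝ) (Nat.cast_nonneg j) j
  have h2 : Real.exp j ≤ 3 ^ j := by
    have h3 : Real.exp j = Real.exp 1 ^ j := by
      rw [← Real.exp_nat_mul]
      simp
    rw [h3]
    have h4 : Real.exp 1 ≤ 3 := Real.exp_one_lt_d9.le.trans (by norm_num)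
    exact pow_le_pow_left₀ (Real.exp_pos 1).le h4 j
  have h5 : ((j : ℝ) ^ j) ≤ 3 ^ j * j.factorial := by
    have hf : (0 : ℝ) < j.factorial := by exact_mod_cast Nat.factorial_pos j
    rw [← div_le_iff₀ hf]
    exact h1.trans h2
  exact_mod_cast h5

theorem term_le {m l k j : ℕ} (h : 18 * m * k ≤ l ^ 2) (hj : j ≤ k) :
    m.choose j * l.choose j * j ^ (3 * j) * 2 ^ j ≤ l ^ (3 * j) := by
  have hf := Nat.factorial_pos j
  have h1 : j.factorial * m.choose j ≤ m ^ j := by
    rw [← Nat.descFactorial_eq_factorial_mul_choose]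
    exact Nat.descFactorial_le_pow m j
  have h2 : j.factorial * l.choose j ≤ l ^ j := by
    rw [← Nat.descFactorial_eq_factorial_mul_choose]
    exact Nat.descFactorial_le_pow l j
  have h3 := pow_le_three j
  have h4 : 18 * m * j * l ≤ l ^ 3 := by
    calc 18 * m * j * l ≤ 18 * m * k * l := by gcongr
      _ ≤ l ^ 2 * l := by gcongr
      _ = l ^ 3 := by ring
  have h5 : j.factorial ^ 2 * (m.choose j * l.choose j * j ^ (3 * j) * 2 ^ j) ≤
      j.factorial ^ 2 * l ^ (3 * j) := by
    calc j.factorial ^ 2 * (m.choose j * l.choose j * j ^ (3 * j) * 2 ^ j)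
        = (j.factorial * m.choose j) * (j.factorial * l.choose j) * (j ^ j) ^ 3 * 2 ^ j := by
          rw [← pow_mul, mul_comm j 3]
          ring
      _ ≤ m ^ j * l ^ j * ((3 ^ j * j.factorial) ^ 2 * j ^ j) * 2 ^ j := by
          have : (j ^ j) ^ 3 = (j ^ j) ^ 2 * j ^ j := by ring
          rw [this]
          gcongr
      _ = j.factorial ^ 2 * (18 * m * j * l) ^ j := by
          have e9 : (3 ^ j * j.factorial) ^ 2 = 9 ^ j * j.factorial ^ 2 := by
            rw [mul_pow, ← pow_mul, mul_comm j 2, pow_mul]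
            norm_num
          have e18 : (18 * m * j * l) ^ j = 9 ^ j * 2 ^ j * m ^ j * j ^ j * l ^ j := by
            rw [← mul_pow, ← mul_pow, ← mul_pow, ← mul_pow]
            norm_num
          rw [e9, e18]
          ring
      _ ≤ j.factorial ^ 2 * (l ^ 3) ^ j := by gcongr
      _ = j.factorial ^ 2 * l ^ (3 * j) := by rw [pow_mul]
  exact Nat.le_of_mul_le_mul_left h5 (by positivity)

theorem exists_concentrator {m l k : ℕ} (hl : 0 < l) (h : 18 * m * k ≤ l ^ 2) (hkm : k ≤ m) :
    ∃ h : Fin m → Fin 3 → Fin l, ∀ E : Finset (Fin m), E.card ≤ k →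
      E.card ≤ (E.biUnion fun x => univ.image (h x)).card := by
  classical
  by_contra hcon
  push Not at hcon
  have hkl : k ≤ l := by
    have : k * k ≤ l * l := by nlinarith
    exact Nat.mul_self_le_mul_self_iff.1 this
  let S : Finset (Fin m) → Finset (Fin l) → Finset (Fin m → Fin 3 → Fin l) := fun E F =>
    Fintype.piFinset fun x => if x ∈ E then Fintype.piFinset fun _ => F else univ
  have hS : ∀ E F, (S E F).card = F.card ^ (3 * E.card) * l ^ (3 * (m - E.card)) := by
    intro E F
    show (Fintype.piFinset _).card = _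
    rw [Fintype.card_piFinset]
    have h1 : ∀ x : Fin m, (if x ∈ E then Fintype.piFinset fun _ : Fin 3 => F else univ).card =
        if x ∈ E then F.card ^ 3 else l ^ 3 := by
      intro x
      split_ifs
      · rw [Fintype.card_piFinset_const]
      · rw [Finset.card_univ, Fintype.card_fun, Fintype.card_fin, Fintype.card_fin]
    rw [Finset.prod_congr rfl fun x _ => h1 x, Finset.prod_ite, Finset.prod_const,
      Finset.prod_const]
    have h2 : (univ.filter fun x => x ∈ E) = E := by simp
    have h3 : (univ.filter fun x => x ∉ E).card = m - E.card := by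
      have : (univ.filter fun x => x ∉ E) = Eᶜ := by
        ext x
        simp
      rw [this, Finset.card_compl, Fintype.card_fin]
    rw [h2, h3, ← pow_mul, ← pow_mul]
  have hcover : (univ : Finset (Fin m → Fin 3 → Fin l)) ⊆ (Finset.Icc 1 k).biUnion fun j =>
      (powersetCard j (univ : Finset (Fin m))).biUnion fun E =>
        (powersetCard j (univ : Finset (Fin l))).biUnion fun F => S E F := by
    intro g _
    obtain ⟨E, hE, hE'⟩ := hcon g
    obtain ⟨F, hF1, hF2⟩ := Finset.exists_superset_card_eq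
      (s := E.biUnion fun x => univ.image (g x)) (n := E.card) hE'.le
      (by rw [Fintype.card_fin]; omega)
    rw [Finset.mem_biUnion]
    refine ⟨E.card, ?_, ?_⟩
    · rw [Finset.mem_Icc]
      exact ⟨by omega, hE⟩
    · rw [Finset.mem_biUnion]
      refine ⟨E, by simp, ?_⟩
      rw [Finset.mem_biUnion]
      refine ⟨F, by simp [hF2], ?_⟩
      rw [Fintype.mem_piFinset]
      intro x
      split_ifs with hx
      · rw [Fintype.mem_piFinset]
        intro i
        apply hF1
        rw [Finset.mem_biUnion]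
        exact ⟨x, hx, Finset.mem_image_of_mem _ (mem_univ i)⟩
      · exact mem_univ _
  have hcard := Finset.card_le_card hcover
  rw [Finset.card_univ, Fintype.card_fun, Fintype.card_fun, Fintype.card_fin, Fintype.card_fin,
    Fintype.card_fin] at hcard
  have hbound : ((Finset.Icc 1 k).biUnion fun j =>
      (powersetCard j (univ : Finset (Fin m))).biUnion fun E =>
        (powersetCard j (univ : Finset (Fin l))).biUnion fun F => S E F).card ≤
      ∑ j ∈ Finset.Icc 1 k, m.choose j * (l.choose j * (j ^ (3 * j) * l ^ (3 * (m - j)))) := by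
    refine Finset.card_biUnion_le.trans (Finset.sum_le_sum fun j _ => ?_)
    have e1 : m.choose j = (powersetCard j (univ : Finset (Fin m))).card := by simp
    have e2 : l.choose j = (powersetCard j (univ : Finset (Fin l))).card := by simp
    rw [e1]
    refine Finset.card_biUnion_le_card_mul _ _ _ fun E hE => ?_
    rw [e2]
    refine Finset.card_biUnion_le_card_mul _ _ _ fun F hF => ?_
    rw [hS, (Finset.mem_powersetCard.1 hE).2, (Finset.mem_powersetCard.1 hF).2]
  have h6 := hcard.trans hbound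
  have h7 : ∀ j ∈ Finset.Icc 1 k,
      ((m.choose j * (l.choose j * (j ^ (3 * j) * l ^ (3 * (m - j)))) : ℕ) : ℝ) ≤
        (l : ℝ) ^ (3 * m) * (1 / 2) ^ j := by
    intro j hj
    rw [Finset.mem_Icc] at hj
    have h8 := term_le h hj.2
    have h9 : (((m.choose j * l.choose j * j ^ (3 * j) * 2 ^ j : ℕ)) : ℝ) ≤
        ((l ^ (3 * j) : ℕ) : ℝ) := by exact_mod_cast h8
    have e3 : (l : ℝ) ^ (3 * m) = (l : ℝ) ^ (3 * j) * (l : ℝ) ^ (3 * (m - j)) := by
      rw [← pow_add]
      congr 1
      omega
    have hl' : (0 : ℝ) < (l : ℝ) ^ (3 * (m - j)) := by positivity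
    rw [e3]
    push_cast at h9 ⊢
    have h10 : ((m.choose j : ℝ) * l.choose j * (j : ℝ) ^ (3 * j)) ≤
        (l : ℝ) ^ (3 * j) * (1 / 2) ^ j := by
      rw [one_div, inv_pow, ← div_eq_mul_inv, le_div_iff₀ (by positivity)]
      exact h9
    calc (m.choose j : ℝ) * (l.choose j * ((j : ℝ) ^ (3 * j) * (l : ℝ) ^ (3 * (m - j))))
        = ((m.choose j : ℝ) * l.choose j * (j : ℝ) ^ (3 * j)) * (l : ℝ) ^ (3 * (m - j)) := by ring
      _ ≤ ((l : ℝ) ^ (3 * j) * (1 / 2) ^ j) * (l : ℝ) ^ (3 * (m - j)) := by gcongr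
      _ = _ := by ring
  have h11 : ((l : ℝ) ^ 3) ^ m ≤ ∑ j ∈ Finset.Icc 1 k, (l : ℝ) ^ (3 * m) * (1 / 2) ^ j := by
    have h12 : (((l ^ 3) ^ m : ℕ) : ℝ) ≤
        ((∑ j ∈ Finset.Icc 1 k, m.choose j * (l.choose j * (j ^ (3 * j) * l ^ (3 * (m - j)))) : ℕ)
          : ℝ) := by exact_mod_cast h6
    push_cast at h12
    refine h12.trans (Finset.sum_le_sum fun j hj => ?_)
    have := h7 j hj
    push_cast at this
    exact this
  rw [← Finset.mul_sum, ← pow_mul] at h11
  have h13 : ∑ j ∈ Finset.Icc 1 k, (1 / 2 : ℝ) ^ j = 1 - (1 / 2) ^ k := by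
    clear h11 h7 h6 hbound hcard hcover hS hcon h hkm hkl S
    induction k with
    | zero => simp
    | succ k ih =>
      rw [Finset.sum_Icc_succ_top (by omega), ih]
      ring
  rw [h13] at h11
  have h14 : (0 : ℝ) < (l : ℝ) ^ (3 * m) := by positivity
  have h15 : (0 : ℝ) < (1 / 2) ^ k := by positivity
  nlinarith

/-- A choice of injections on small sets. -/
theorem exists_injections {m l k : ℕ} (hl : 0 < l) (h : 18 * m * k ≤ l ^ 2) (hkm : k ≤ m) :
    ∃ (h : Fin m → Fin 3 → Fin l) (f : Finset (Fin m) → Fin m → Fin l),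
      ∀ E : Finset (Fin m), E.card ≤ k →
        (∀ x ∈ E, ∀ y ∈ E, f E x = f E y → x = y) ∧ ∀ x ∈ E, ∃ i, h x i = f E x := by
  classical
  obtain ⟨g, hg⟩ := exists_concentrator hl h hkm
  have key : ∀ E : Finset (Fin m), ∃ f : Fin m → Fin l, E.card ≤ k →
      (∀ x ∈ E, ∀ y ∈ E, f x = f y → x = y) ∧ ∀ x ∈ E, ∃ i, g x i = f x := by
    intro E
    by_cases hE : E.card ≤ k
    · let t : E → Finset (Fin l) := fun x => univ.image (g x)
      have h1 : ∀ s : Finset E, s.card ≤ (s.biUnion t).card := by
        intro s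
        have h2 : (s.map (Function.Embedding.subtype _)).card ≤ k := by
          rw [Finset.card_map]
          exact (Finset.card_le_univ s).trans (by simpa using hE)
        have h3 := hg _ h2
        rw [Finset.card_map] at h3
        refine h3.trans (Finset.card_le_card ?_)
        intro y hy
        rw [Finset.mem_biUnion] at hy ⊢
        obtain ⟨x, hx, hy⟩ := hy
        rw [Finset.mem_map] at hx
        obtain ⟨z, hz, rfl⟩ := hx
        exact ⟨z, hz, hy⟩
      obtain ⟨f, hf1, hf2⟩ := (Finset.all_card_le_biUnion_card_iff_exists_injective t).1 h1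
      refine ⟨fun x => if hx : x ∈ E then f ⟨x, hx⟩ else ⟨0, hl⟩, fun _ => ⟨?_, ?_⟩⟩
      · intro x hx y hy hxy
        beta_reduce at hxy
        rw [dif_pos hx, dif_pos hy] at hxy
        exact congrArg Subtype.val (hf1 hxy)
      · intro x hx
        beta_reduce
        rw [dif_pos hx]
        have h4 := hf2 ⟨x, hx⟩
        rw [Finset.mem_image] at h4
        obtain ⟨i, -, hi⟩ := h4
        exact ⟨i, hi⟩
    · exact ⟨fun _ => ⟨0, hl⟩, fun h => absurd h hE⟩
  choose f hf using key
  exact ⟨g, f, hf⟩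

end Pool.Agent.X223.KR
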