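import Pool.Agent.X223.KR.Conc

/-!
Uniformly exhaustive submeasures: positive intersection numbers.
-/

set_option autoImplicit false

namespace Pool.Agent.X223.KR

open Finset

section

variable {B : Type*} [BooleanAlgebra B]

/-- A finite monotone subadditive function. -/
structure IsSub (m : B → ℝ) : Prop where
  bot : m ⊥ = 0
  mono : ∀ a b, a ≤ b → m a ≤ m b
  sub : ∀ a b, m (a ⊔ b) ≤ m a + m b

/-- Uniform exhaustivity. -/
def UnifExh (m : B → ℝ) : Prop :=
  ∀ ε : ℝ, 0 < ε → ∃ r : ℕ, ∀ c : Fin r → B, (∀ i j, i ≠ j → Disjoint (c i) (c j)) →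
    ∃ i, m (c i) < ε

/-- Partition of unity. -/
theorem part_bot {κ : Type*} [DecidableEq κ] (b : κ → B) (s : Finset κ) (z : B)
    (h : ∀ E ⊆ s, z ⊓ (E.inf b ⊓ (s \ E).inf fun x => (b x)ᶜ) = ⊥) : z = ⊥ := by
  induction s using Finset.induction_on with
  | empty =>
    have := h ∅ (Finset.Subset.refl _)
    simpa using this
  | insert a s ha ih =>
    refine ih fun E hE => ?_
    have haE : a ∉ E := fun h' => ha (hE h')
    have h1 := h (insert a E) (Finset.insert_subset_insert a hE)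
    have h2 := h E (hE.trans (Finset.subset_insert a s))
    have e1 : insert a s \ insert a E = s \ E := by
      ext x
      simp only [Finset.mem_sdiff, Finset.mem_insert]
      constructor
      · rintro ⟨h3 | h3, h4⟩
        · exact absurd (Or.inl h3) h4
        · exact ⟨h3, fun h5 => h4 (Or.inr h5)⟩
      · rintro ⟨h3, h4⟩
        refine ⟨Or.inr h3, ?_⟩
        rintro (h5 | h5)
        · exact ha (h5 ▸ h3)
        · exact h4 h5
    have e2 : insert a s \ E = insert a (s \ E) := by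
      rw [Finset.insert_sdiff_of_notMem _ haE]
    rw [e1, Finset.inf_insert] at h1
    rw [e2, Finset.inf_insert] at h2
    have h3 : z ⊓ (E.inf b ⊓ (s \ E).inf fun x => (b x)ᶜ) =
        (z ⊓ (b a ⊓ E.inf b ⊓ (s \ E).inf fun x => (b x)ᶜ)) ⊔
          (z ⊓ (E.inf b ⊓ ((b a)ᶜ ⊓ (s \ E).inf fun x => (b x)ᶜ))) := by
      set u := E.inf b
      set v := (s \ E).inf fun x => (b x)ᶜ
      have : z ⊓ (u ⊓ v) = (z ⊓ (u ⊓ v)) ⊓ (b a ⊔ (b a)ᶜ) := by simp
      rw [this, inf_sup_left]
      congr 1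
      · ac_rfl
      · ac_rfl
    rw [h3, h1, h2, bot_sup_eq]

theorem sub_three {m : B → ℝ} (hm : IsSub m) (a : B) (d : Fin 3 → B) (h : a ≤ univ.sup d) {ε : ℝ}
    (ha : ε ≤ m a) : ∃ i, ε / 3 ≤ m (d i) := by
  by_contra hcon
  push Not at hcon
  have h1 : univ.sup d = d 0 ⊔ (d 1 ⊔ d 2) := by
    rw [Fin.univ_succ, Finset.sup_cons, Finset.sup_map, Fin.univ_succ, Finset.sup_cons,
      Finset.sup_map]
    simp only [Function.Embedding.coeFn_mk, Function.comp_apply, Finset.univ_unique]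
    rw [Finset.sup_singleton]
    rfl
  have h2 := hm.mono _ _ h
  rw [h1] at h2
  have h3 := hm.sub (d 0) (d 1 ⊔ d 2)
  have h4 := hm.sub (d 1) (d 2)
  have := hcon 0
  have := hcon 1
  have := hcon 2
  linarith

/-- The main lemma: among `m` elements of submeasure at least `ε` more than `k` have a nonzero
common part. -/
theorem kr_core {μ : B → ℝ} (hμ : IsSub μ) {ε : ℝ} {r : ℕ}
    (hr : ∀ c : Fin (r + 1) → B, (∀ i j, i ≠ j → Disjoint (c i) (c j)) → ∃ i, μ (c i) < ε / 3)
    {m l k : ℕ} (hl : 0 < l) (hk : 18 * m * k ≤ l ^ 2) (hkm : k ≤ m) (hrl : r * l < m)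
    (b : Fin m → B) (hb : ∀ x, ε ≤ μ (b x)) : ∃ E : Finset (Fin m), k < E.card ∧ E.inf b ≠ ⊥ := by
  classical
  by_contra hcon
  push Not at hcon
  obtain ⟨h, f, hf⟩ := exists_injections hl hk hkm
  let c : Finset (Fin m) → B := fun E => E.inf b ⊓ (univ \ E).inf fun x => (b x)ᶜ
  have hc0 : ∀ E, k < E.card → c E = ⊥ := by
    intro E hE
    show E.inf b ⊓ _ = ⊥
    rw [hcon E hE, bot_inf_eq]
  have hc1 : ∀ E x, x ∈ E → c E ≤ b x := fun E x hx => inf_le_left.trans (Finset.inf_le hx)
  have hc2 : ∀ E x, x ∉ E → c E ≤ (b x)ᶜ := fun E x hx =>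
    inf_le_right.trans (Finset.inf_le (f := fun x => (b x)ᶜ) (by simp [hx]))
  have hc3 : ∀ E E', E ≠ E' → Disjoint (c E) (c E') := by
    intro E E' hne
    have : ∃ x, ¬ (x ∈ E ↔ x ∈ E') := by
      by_contra hx
      push Not at hx
      exact hne (Finset.ext hx)
    obtain ⟨x, hx⟩ := this
    by_cases h1 : x ∈ E
    · have h2 : x ∉ E' := fun h2 => hx ⟨fun _ => h2, fun _ => h1⟩
      exact Disjoint.mono (hc1 E x h1) (hc2 E' x h2) disjoint_compl_right
    · have h2 : x ∈ E' := by
        by_contra h2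
        exact hx ⟨fun h3 => absurd h3 h1, fun h3 => absurd h3 h2⟩
      exact Disjoint.mono (hc2 E x h1) (hc1 E' x h2) disjoint_compl_left
  let d : Fin m → Fin l → B := fun x y =>
    (univ.filter fun E : Finset (Fin m) => E.card ≤ k ∧ x ∈ E ∧ f E x = y).sup c
  have hd1 : ∀ y x x', x ≠ x' → Disjoint (d x y) (d x' y) := by
    intro y x x' hne
    refine Finset.disjoint_sup_left.2 fun E hE => Finset.disjoint_sup_right.2 fun E' hE' => ?_
    rw [Finset.mem_filter] at hE hE'
    by_cases hEE : E = E'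
    · subst hEE
      exact absurd ((hf E hE.2.1).1 x hE.2.2.1 x' hE'.2.2.1 (hE.2.2.2.trans hE'.2.2.2.symm)) hne
    · exact hc3 E E' hEE
  have hd2 : ∀ x, b x ≤ univ.sup fun i => d x (h x i) := by
    intro x
    set w := univ.sup fun i => d x (h x i) with hw
    rw [← sdiff_eq_bot_iff, sdiff_eq]
    refine part_bot b univ (b x ⊓ wᶜ) fun E _ => ?_
    show b x ⊓ wᶜ ⊓ c E = ⊥
    by_cases hxE : x ∈ E
    · by_cases hEk : E.card ≤ k
      · have h1 : c E ≤ w := by
          obtain ⟨i, hi⟩ := (hf E hEk).2 x hxE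
          have h2 : c E ≤ d x (h x i) :=
            Finset.le_sup (f := c) (by simp [hEk, hxE, hi])
          exact h2.trans (Finset.le_sup (f := fun i => d x (h x i)) (mem_univ i))
        have h2 : wᶜ ⊓ c E = ⊥ := by
          rw [← disjoint_iff]
          exact Disjoint.mono_right h1 disjoint_compl_left
        rw [inf_assoc, h2, inf_bot_eq]
      · rw [hc0 E (by omega), inf_bot_eq]
    · have h2 : b x ⊓ c E = ⊥ := by
        rw [← disjoint_iff]
        exact Disjoint.mono_right (hc2 E x hxE) disjoint_compl_right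
      rw [inf_assoc, inf_comm wᶜ, ← inf_assoc, h2, bot_inf_eq]
  have hd3 : ∀ x, ∃ y, ε / 3 ≤ μ (d x y) := by
    intro x
    obtain ⟨i, hi⟩ := sub_three hμ (b x) (fun i => d x (h x i)) (hd2 x) (hb x)
    exact ⟨_, hi⟩
  choose g hg using hd3
  have hfib : ∀ y, (univ.filter fun x => g x = y).card ≤ r := by
    intro y
    by_contra hcard
    push Not at hcard
    obtain ⟨s, hs1, hs2⟩ := Finset.exists_subset_card_eq (show r + 1 ≤ _ from hcard)
    let e := s.orderEmbOfFin hs2
    obtain ⟨i, hi⟩ := hr (fun i => d (e i) y) (fun i j hij =>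
      hd1 y _ _ fun h' => hij (e.injective h'))
    have h1 : e i ∈ univ.filter fun x => g x = y := hs1 (Finset.orderEmbOfFin_mem s hs2 i)
    rw [Finset.mem_filter] at h1
    have h2 := hg (e i)
    rw [h1.2] at h2
    linarith
  have hfin := Finset.card_le_mul_card_image_of_maps_to (s := (univ : Finset (Fin m)))
    (t := (univ : Finset (Fin l))) (f := g) (fun _ _ => mem_univ _) r (fun y _ => hfib y)
  rw [Finset.card_univ, Finset.card_univ, Fintype.card_fin, Fintype.card_fin] at hfin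
  omega

end

end Pool.Agent.X223.KR
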