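import Pool.Agent.X223.KR.Inter

/-!
Complete Boolean algebras with a continuous outer measure all of whose countably generated
complete subalgebras admit measures.
-/

set_option autoImplicit false

namespace Pool.Agent.X223.KR

open Finset Filter Topology

universe u

variable {B : Type u} [CompleteBooleanAlgebra B]

/-- A continuous outer measure on a complete Boolean algebra. -/
structure IsContinuousOuterMeasure (m : B → ℝ) : Prop where
  bot : m ⊥ = 0
  pos : ∀ a, a ≠ ⊥ → 0 < m a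
  mono : ∀ a b, a ≤ b → m a ≤ m b
  sub : ∀ a b, m (a ⊔ b) ≤ m a + m b
  cont : ∀ a : ℕ → B, (∀ n, a (n + 1) ≤ a n) → ⨅ n, a n = ⊥ →
    Tendsto (fun n => m (a n)) atTop (𝓝 0)

/-- A complete subalgebra: closed under complements and all suprema and infima taken in `B`. -/
structure IsCompleteSubalgebra (C : Set B) : Prop where
  compl : ∀ a ∈ C, aᶜ ∈ C
  sSup : ∀ S ⊆ C, sSup S ∈ C
  sInf : ∀ S ⊆ C, sInf S ∈ C

/-- The smallest complete subalgebra containing some countable set. -/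
def IsCountablyGenerated (C : Set B) : Prop :=
  ∃ S : Set B, S.Countable ∧ IsCompleteSubalgebra C ∧ S ⊆ C ∧
    ∀ D : Set B, IsCompleteSubalgebra D → S ⊆ D → C ⊆ D

/-- A measure on the complete subalgebra `C`: a strictly positive countably additive map to
`[0, ∞)`. -/
structure IsMeasureOn (C : Set B) (μ : C → ℝ) : Prop where
  nonneg : ∀ a, 0 ≤ μ a
  pos : ∀ a : C, (a : B) ≠ ⊥ → 0 < μ a
  add : ∀ (a : ℕ → C) (b : C), (∀ i j, i ≠ j → Disjoint (a i : B) (a j)) →
    (b : B) = ⨆ n, (a n : B) → HasSum (fun n => μ (a n)) (μ b)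

section sub

variable {C : Set B} (hC : IsCompleteSubalgebra C)

include hC

theorem iSup_mem {ι : Type*} (a : ι → B) (h : ∀ i, a i ∈ C) : ⨆ i, a i ∈ C := by
  refine hC.sSup _ ?_
  rintro _ ⟨i, rfl⟩
  exact h i

theorem iInf_mem {ι : Type*} (a : ι → B) (h : ∀ i, a i ∈ C) : ⨅ i, a i ∈ C := by
  refine hC.sInf _ ?_
  rintro _ ⟨i, rfl⟩
  exact h i

theorem bot_mem' : (⊥ : B) ∈ C := by
  rw [← sSup_empty]
  exact hC.sSup _ (Set.empty_subset _)

theorem top_mem' : (⊤ : B) ∈ C := by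
  rw [← sInf_empty]
  exact hC.sInf _ (Set.empty_subset _)

theorem sup_mem' {a b : B} (ha : a ∈ C) (hb : b ∈ C) : a ⊔ b ∈ C := by
  rw [← sSup_pair]
  refine hC.sSup _ ?_
  rintro x (rfl | rfl)
  · exact ha
  · exact hb

theorem inf_mem' {a b : B} (ha : a ∈ C) (hb : b ∈ C) : a ⊓ b ∈ C := by
  rw [← sInf_pair]
  refine hC.sInf _ ?_
  rintro x (rfl | rfl)
  · exact ha
  · exact hb

theorem sdiff_mem' {a b : B} (ha : a ∈ C) (hb : b ∈ C) : a \ b ∈ C := by
  rw [sdiff_eq]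
  exact inf_mem' hC ha (hC.compl _ hb)

theorem fsup_mem {ι : Type*} (s : Finset ι) (f : ι → B) (h : ∀ i ∈ s, f i ∈ C) : s.sup f ∈ C := by
  classical
  induction s using Finset.induction_on with
  | empty =>
    rw [Finset.sup_empty]
    exact bot_mem' hC
  | insert a s _ ih =>
    rw [Finset.sup_insert]
    exact sup_mem' hC (h a (Finset.mem_insert_self a s))
      (ih fun i hi => h i (Finset.mem_insert_of_mem hi))

theorem disjointed_mem (a : ℕ → B) (h : ∀ n, a n ∈ C) (n : ℕ) : disjointed a n ∈ C := by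
  rw [disjointed_apply]
  exact sdiff_mem' hC (h n) (fsup_mem hC _ _ fun i _ => h i)

variable {μ : C → ℝ} (hμ : IsMeasureOn C μ)

include hμ

theorem meas_bot : μ ⟨⊥, bot_mem' hC⟩ = 0 := by
  have h := hμ.add (fun _ => ⟨⊥, bot_mem' hC⟩) ⟨⊥, bot_mem' hC⟩ (fun _ _ _ => disjoint_bot_left)
    (by simp)
  exact (summable_const_iff _).1 h.summable

theorem meas_sup {a b : B} (ha : a ∈ C) (hb : b ∈ C) (hab : Disjoint a b) :
    μ ⟨a ⊔ b, sup_mem' hC ha hb⟩ = μ ⟨a, ha⟩ + μ ⟨b, hb⟩ := by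
  let c : ℕ → C := fun n => if n = 0 then ⟨a, ha⟩ else if n = 1 then ⟨b, hb⟩ else
    ⟨⊥, bot_mem' hC⟩
  have c0 : c 0 = ⟨a, ha⟩ := rfl
  have c1 : c 1 = ⟨b, hb⟩ := rfl
  have c2 : ∀ n, c (n + 2) = ⟨⊥, bot_mem' hC⟩ := fun n => rfl
  have h := hμ.add c ⟨a ⊔ b, sup_mem' hC ha hb⟩ (by
    rintro (_ | _ | i) (_ | _ | j) hij
    · exact absurd rfl hij
    · exact hab
    · exact disjoint_bot_right
    · exact hab.symm
    · exact absurd rfl hij
    · exact disjoint_bot_right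
    · exact disjoint_bot_left
    · exact disjoint_bot_left
    · exact disjoint_bot_left) (by
    apply le_antisymm
    · refine sup_le ?_ ?_
      · exact le_iSup (fun n => (c n : B)) 0
      · exact le_iSup (fun n => (c n : B)) 1
    · refine iSup_le ?_
      rintro (_ | _ | i)
      · exact le_sup_left
      · exact le_sup_right
      · exact bot_le)
  have h2 : HasSum (fun n => μ (c n)) (∑ n ∈ Finset.range 2, μ (c n)) :=
    hasSum_sum_of_ne_finset_zero (by
    intro n hn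
    rw [Finset.mem_range] at hn
    obtain ⟨k, rfl⟩ : ∃ k, n = k + 2 := ⟨n - 2, by omega⟩
    show μ (c (k + 2)) = 0
    rw [c2]
    exact meas_bot hC hμ)
  have h3 := h.unique h2
  rw [h3, Finset.sum_range_succ, Finset.sum_range_one]
  rfl

theorem meas_mono {a b : B} (ha : a ∈ C) (hb : b ∈ C) (hab : a ≤ b) : μ ⟨a, ha⟩ ≤ μ ⟨b, hb⟩ := by
  have h := meas_sup hC hμ ha (sdiff_mem' hC hb ha) disjoint_sdiff_self_right
  have h2 : (⟨a ⊔ b \ a, sup_mem' hC ha (sdiff_mem' hC hb ha)⟩ : C) = ⟨b, hb⟩ :=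
    Subtype.ext (sup_sdiff_cancel_right hab)
  rw [h2] at h
  rw [h]
  have := hμ.nonneg ⟨b \ a, sdiff_mem' hC hb ha⟩
  linarith

theorem meas_iSup {a : ℕ → B} (ha : ∀ n, a n ∈ C) {t : ℕ → ℝ} (ht : ∀ n, μ ⟨a n, ha n⟩ ≤ t n)
    {T : ℝ} (hT : HasSum t T) : μ ⟨⨆ n, a n, iSup_mem hC a ha⟩ ≤ T := by
  have h := hμ.add (fun n => ⟨disjointed a n, disjointed_mem hC a ha n⟩)
    ⟨⨆ n, a n, iSup_mem hC a ha⟩ (fun i j hij => disjoint_disjointed a hij)
    (iSup_disjointed a).symm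
  refine hasSum_le (fun n => ?_) h hT
  exact (meas_mono hC hμ _ (ha n) (disjointed_le a n)).trans (ht n)

theorem meas_fsup {ι : Type*} [DecidableEq ι] (s : Finset ι) (f : ι → B) (h : ∀ i, f i ∈ C)
    (hd : ∀ i j, i ≠ j → Disjoint (f i) (f j)) :
    μ ⟨s.sup f, fsup_mem hC s f fun i _ => h i⟩ = ∑ i ∈ s, μ ⟨f i, h i⟩ := by
  induction s using Finset.induction_on with
  | empty =>
    rw [Finset.sum_empty]
    exact meas_bot hC hμ
  | insert a s ha ih =>
    rw [Finset.sum_insert ha, ← ih, ← meas_sup hC hμ (h a) _ ?_]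
    · congr 1
      exact Subtype.ext Finset.sup_insert
    · rw [Finset.disjoint_sup_right]
      intro i hi
      exact hd a i fun h' => ha (h' ▸ hi)

end sub

theorem IsContinuousOuterMeasure.isSub {m : B → ℝ} (h : IsContinuousOuterMeasure m) : IsSub m :=
  ⟨h.bot, h.mono, h.sub⟩

/-- Absolute continuity on subalgebras with a measure. -/
theorem abs_cont {m : B → ℝ} (hm : IsContinuousOuterMeasure m) {C : Set B}
    (hC : IsCompleteSubalgebra C) {μ : C → ℝ} (hμ : IsMeasureOn C μ) {ε : ℝ} (hε : 0 < ε) :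
    ∃ δ : ℝ, 0 < δ ∧ ∀ a (ha : a ∈ C), ε ≤ m a → δ ≤ μ ⟨a, ha⟩ := by
  by_contra hcon
  push Not at hcon
  have h1 : ∀ n : ℕ, ∃ a, ∃ ha : a ∈ C, ε ≤ m a ∧ μ ⟨a, ha⟩ < (1 / 2 : ℝ) ^ n := fun n =>
    hcon ((1 / 2) ^ n) (by positivity)
  choose a ha h2 h3 using h1
  let b : ℕ → B := fun k => ⨆ n, a (n + k)
  have hb : ∀ k, b k ∈ C := fun k => iSup_mem hC _ fun n => ha _
  have hbm : ∀ k, μ ⟨b k, hb k⟩ ≤ 2 * (1 / 2) ^ k := by
    intro k
    refine meas_iSup hC hμ (a := fun n => a (n + k)) (fun n => ha (n + k))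
      (t := fun n => (1 / 2 : ℝ) ^ n * (1 / 2) ^ k) (fun n => ?_) ?_
    · rw [← pow_add]
      exact (h3 (n + k)).le
    · exact hasSum_geometric_two.mul_right _
  have hanti : ∀ k, b (k + 1) ≤ b k := by
    intro k
    refine iSup_le fun n => ?_
    have := le_iSup (fun n => a (n + k)) (n + 1)
    have e : n + 1 + k = n + (k + 1) := by omega
    rw [e] at this
    exact this
  have hinf : ⨅ k, b k = ⊥ := by
    by_contra hne
    have hmem : ⨅ k, b k ∈ C := iInf_mem hC _ hb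
    have hp := hμ.pos ⟨⨅ k, b k, hmem⟩ hne
    have h4 : ∀ k : ℕ, μ ⟨⨅ k, b k, hmem⟩ ≤ 2 * (1 / 2) ^ k := fun k =>
      (meas_mono hC hμ hmem (hb k) (iInf_le _ k)).trans (hbm k)
    have h5 : Tendsto (fun k : ℕ => 2 * (1 / 2 : ℝ) ^ k) atTop (𝓝 (2 * 0)) :=
      (tendsto_pow_atTop_nhds_zero_of_lt_one (by norm_num) (by norm_num)).const_mul 2
    have h6 := ge_of_tendsto' h5 h4
    linarith
  have h7 := hm.cont b hanti hinf
  have h8 : ∀ k, ε ≤ m (b k) := by
    intro k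
    refine (h2 k).trans (hm.mono _ _ ?_)
    have := le_iSup (fun n => a (n + k)) 0
    simpa using this
  have h9 := ge_of_tendsto' h7 h8
  linarith

/-- The outer measure is uniformly exhaustive. -/
theorem unifExh {m : B → ℝ} (hm : IsContinuousOuterMeasure m)
    (h : ∀ C : Set B, IsCountablyGenerated C → ∃ μ : C → ℝ, IsMeasureOn C μ) : UnifExh m := by
  classical
  intro ε hε
  by_contra hcon
  push Not at hcon
  choose c hc1 hc2 using hcon
  let S : Set B := ⋃ r, Set.range (c r)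
  let C : Set B := {a | ∀ D : Set B, IsCompleteSubalgebra D → S ⊆ D → a ∈ D}
  have hC : IsCompleteSubalgebra C := by
    refine ⟨fun a ha D hD hS => hD.compl _ (ha D hD hS), fun T hT D hD hS => ?_,
      fun T hT D hD hS => ?_⟩
    · exact hD.sSup _ fun a ha => hT ha D hD hS
    · exact hD.sInf _ fun a ha => hT ha D hD hS
  have hSC : S ⊆ C := fun a ha D _ hS => hS ha
  obtain ⟨μ, hμ⟩ := h C ⟨S, Set.countable_iUnion fun r => Set.countable_range _, hC, hSC,
    fun D hD hS a ha => ha D hD hS⟩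
  obtain ⟨δ, hδ, hδ'⟩ := abs_cont hm hC hμ hε
  obtain ⟨r, hr⟩ := exists_nat_gt (μ ⟨⊤, top_mem' hC⟩ / δ)
  rw [div_lt_iff₀ hδ] at hr
  have hmem : ∀ i, c r i ∈ C := fun i => hSC (Set.mem_iUnion.2 ⟨r, i, rfl⟩)
  have h1 := meas_fsup hC hμ univ (c r) hmem (hc1 r)
  have h2 := meas_mono hC hμ (fsup_mem hC univ (c r) fun i _ => hmem i) (top_mem' hC) le_top
  rw [h1] at h2
  have h3 : ∑ _i : Fin r, δ ≤ ∑ i : Fin r, μ ⟨c r i, hmem i⟩ :=
    Finset.sum_le_sum fun i _ => hδ' _ (hmem i) (hc2 r i)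
  rw [Finset.sum_const, Finset.card_univ, Fintype.card_fin, nsmul_eq_mul] at h3
  linarith

/-! ### The countably additive part -/

section cpart

variable {ν : B → ℝ} (h0 : ∀ b, 0 ≤ ν b) (hadd : ∀ a b, Disjoint a b → ν (a ⊔ b) = ν a + ν b)

/-- The bounds of `ν` along sequences increasing to `a`. -/
def bnd (ν : B → ℝ) (a : B) : Set ℝ :=
  {t | ∃ s : ℕ → B, Monotone s ∧ ⨆ n, s n = a ∧ ∀ n, ν (s n) ≤ t}

/-- The countably additive part. -/
noncomputable def cpart (ν : B → ℝ) (a : B) : ℝ := sInf (bnd ν a)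

theorem self_mem_bnd (a : B) : ν a ∈ bnd ν a :=
  ⟨fun _ => a, fun _ _ _ => le_rfl, iSup_const, fun _ => le_rfl⟩

include h0

theorem bnd_nonneg {a : B} {t : ℝ} (ht : t ∈ bnd ν a) : 0 ≤ t := by
  obtain ⟨s, -, -, h⟩ := ht
  exact (h0 _).trans (h 0)

theorem cpart_nonneg (a : B) : 0 ≤ cpart ν a :=
  le_csInf ⟨_, self_mem_bnd a⟩ fun _ ht => bnd_nonneg h0 ht

theorem cpart_le {a : B} {t : ℝ} (ht : t ∈ bnd ν a) : cpart ν a ≤ t :=
  csInf_le ⟨0, fun _ ht => bnd_nonneg h0 ht⟩ ht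

omit h0 in
theorem exists_bnd (a : B) {ε : ℝ} (hε : 0 < ε) : ∃ t ∈ bnd ν a, t < cpart ν a + ε :=
  exists_lt_of_csInf_lt ⟨_, self_mem_bnd a⟩ (by unfold cpart; linarith)

include hadd

theorem charge_mono {a b : B} (hab : a ≤ b) : ν a ≤ ν b := by
  have h := hadd a (b \ a) disjoint_sdiff_self_right
  rw [sup_sdiff_cancel_right hab] at h
  have := h0 (b \ a)
  linarith

omit h0 in
theorem charge_bot : ν ⊥ = 0 := by
  have h := hadd ⊥ ⊥ disjoint_bot_left
  rw [bot_sup_eq] at h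
  linarith

omit h0 in
theorem charge_fsup {ι : Type*} [DecidableEq ι] (s : Finset ι) (f : ι → B)
    (hd : ∀ i ∈ s, ∀ j ∈ s, i ≠ j → Disjoint (f i) (f j)) : ν (s.sup f) = ∑ i ∈ s, ν (f i) := by
  induction s using Finset.induction_on with
  | empty =>
    rw [Finset.sup_empty, Finset.sum_empty]
    exact charge_bot hadd
  | insert a s ha ih =>
    rw [Finset.sum_insert ha, Finset.sup_insert, hadd, ih]
    · intro i hi j hj
      exact hd i (Finset.mem_insert_of_mem hi) j (Finset.mem_insert_of_mem hj)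
    · rw [Finset.disjoint_sup_right]
      intro i hi
      exact hd a (Finset.mem_insert_self a s) i (Finset.mem_insert_of_mem hi)
        fun h' => ha (h' ▸ hi)

/-- Countable subadditivity. -/
theorem cpart_le_sum {d : ℕ → B} (hd : ∀ i j, i ≠ j → Disjoint (d i) (d j)) {t : ℕ → ℝ}
    (ht : ∀ k, t k ∈ bnd ν (d k)) {T : ℝ} (hT : HasSum t T) : T ∈ bnd ν (⨆ k, d k) := by
  choose s hs1 hs2 hs3 using ht
  have hsd : ∀ k n, s k n ≤ d k := fun k n => by
    rw [← hs2 k]
    exact le_iSup (s k) n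
  refine ⟨fun n => (Finset.range n).sup fun k => s k n, ?_, ?_, ?_⟩
  · intro n n' hn
    refine Finset.sup_le fun k hk => ?_
    refine (hs1 k hn).trans (Finset.le_sup (f := fun k => s k n') ?_)
    rw [Finset.mem_range] at hk ⊢
    omega
  · apply le_antisymm
    · refine iSup_le fun n => Finset.sup_le fun k _ => ?_
      exact (hsd k n).trans (le_iSup d k)
    · refine iSup_le fun k => ?_
      rw [← hs2 k]
      refine iSup_le fun n => ?_
      refine le_trans ?_ (le_iSup (fun n => (Finset.range n).sup fun k => s k n) (max n (k + 1)))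
      refine (hs1 k (le_max_left n (k + 1))).trans
        (Finset.le_sup (f := fun k' => s k' (max n (k + 1))) ?_)
      rw [Finset.mem_range]
      omega
  · intro n
    beta_reduce
    rw [charge_fsup hadd _ _ fun i _ j _ hij =>
      Disjoint.mono (hsd i n) (hsd j n) (hd i j hij)]
    calc ∑ k ∈ Finset.range n, ν (s k n) ≤ ∑ k ∈ Finset.range n, t k :=
          Finset.sum_le_sum fun k _ => hs3 k n
      _ ≤ T := sum_le_hasSum _ (fun k _ => bnd_nonneg h0 ⟨s k, hs1 k, hs2 k, hs3 k⟩) hT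

/-- Superadditivity. -/
theorem sum_cpart_le {d : ℕ → B} (hd : ∀ i j, i ≠ j → Disjoint (d i) (d j)) (K : ℕ) {t : ℝ}
    (ht : t ∈ bnd ν (⨆ k, d k)) : ∑ k ∈ Finset.range K, cpart ν (d k) ≤ t := by
  obtain ⟨s, hs1, hs2, hs3⟩ := ht
  have hlim : ∀ k, ∃ L, L ∈ bnd ν (d k) ∧ Tendsto (fun n => ν (s n ⊓ d k)) atTop (𝓝 L) := by
    intro k
    have hmono : Monotone fun n => ν (s n ⊓ d k) := fun n n' hn =>
      charge_mono h0 hadd (inf_le_inf_right _ (hs1 hn))
    have hbdd : BddAbove (Set.range fun n => ν (s n ⊓ d k)) := by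
      refine ⟨t, ?_⟩
      rintro _ ⟨n, rfl⟩
      exact (charge_mono h0 hadd inf_le_left).trans (hs3 n)
    refine ⟨_, ⟨fun n => s n ⊓ d k, fun n n' hn => inf_le_inf_right _ (hs1 hn), ?_, fun n => ?_⟩,
      tendsto_atTop_ciSup hmono hbdd⟩
    · rw [← iSup_inf_eq, hs2]
      exact inf_eq_right.2 (le_iSup d k)
    · exact le_ciSup hbdd n
  choose L hL1 hL2 using hlim
  have h1 : Tendsto (fun n => ∑ k ∈ Finset.range K, ν (s n ⊓ d k)) atTop
      (𝓝 (∑ k ∈ Finset.range K, L k)) := tendsto_finsetSum _ fun k _ => hL2 k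
  have h2 : ∀ n, ∑ k ∈ Finset.range K, ν (s n ⊓ d k) ≤ t := by
    intro n
    rw [← charge_fsup hadd (Finset.range K) (fun k => s n ⊓ d k) fun i _ j _ hij =>
      Disjoint.mono inf_le_right inf_le_right (hd i j hij)]
    refine (charge_mono h0 hadd (Finset.sup_le fun k _ => inf_le_left)).trans (hs3 n)
  calc ∑ k ∈ Finset.range K, cpart ν (d k) ≤ ∑ k ∈ Finset.range K, L k :=
        Finset.sum_le_sum fun k _ => cpart_le h0 (hL1 k)
    _ ≤ t := le_of_tendsto' h1 h2

theorem cpart_hasSum {d : ℕ → B} (hd : ∀ i j, i ≠ j → Disjoint (d i) (d j)) :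
    HasSum (fun k => cpart ν (d k)) (cpart ν (⨆ k, d k)) := by
  have h1 : ∀ K, ∑ k ∈ Finset.range K, cpart ν (d k) ≤ cpart ν (⨆ k, d k) := fun K =>
    le_csInf ⟨_, self_mem_bnd _⟩ fun t ht => sum_cpart_le h0 hadd hd K ht
  have hs : Summable fun k => cpart ν (d k) :=
    summable_of_sum_range_le (fun k => cpart_nonneg h0 _) h1
  have h2 : ∑' k, cpart ν (d k) ≤ cpart ν (⨆ k, d k) :=
    Real.tsum_le_of_sum_range_le (fun k => cpart_nonneg h0 _) h1
  have h3 : cpart ν (⨆ k, d k) ≤ ∑' k, cpart ν (d k) := by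
    refine le_of_forall_pos_le_add fun ε hε => ?_
    have h4 : ∀ k : ℕ, ∃ t ∈ bnd ν (d k), t < cpart ν (d k) + ε / 2 * (1 / 2) ^ k := fun k =>
      exists_bnd _ (by positivity)
    choose t ht1 ht2 using h4
    have hs2 : HasSum (fun k => cpart ν (d k) + ε / 2 * (1 / 2 : ℝ) ^ k)
        (∑' k, cpart ν (d k) + ε / 2 * 2) := hs.hasSum.add (hasSum_geometric_two.mul_left _)
    have ht3 : Summable t := Summable.of_nonneg_of_le (fun k => bnd_nonneg h0 (ht1 k))
      (fun k => (ht2 k).le) hs2.summable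
    have h5 := cpart_le h0 (cpart_le_sum h0 hadd hd ht1 ht3.hasSum)
    have h6 := hasSum_le (fun k => (ht2 k).le) ht3.hasSum hs2
    linarith
  rw [← le_antisymm h2 h3]
  exact hs.hasSum

end cpart

/-- Countable subadditivity of a continuous outer measure. -/
theorem m_iSup_le {m : B → ℝ} (hm : IsContinuousOuterMeasure m) (e : ℕ → B) {t : ℕ → ℝ}
    (ht : ∀ k, m (e k) ≤ t k) {T : ℝ} (hT : HasSum t T) : m (⨆ k, e k) ≤ T := by
  have hnn : ∀ a, 0 ≤ m a := fun a => by
    rw [← hm.bot]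
    exact hm.mono _ _ bot_le
  let p : ℕ → B := fun n => (⨆ k, e k) \ (Finset.range n).sup e
  have hanti : ∀ n, p (n + 1) ≤ p n := fun n =>
    sdiff_le_sdiff_left (Finset.sup_mono (Finset.range_mono (Nat.le_succ n)))
  have hinf : ⨅ n, p n = ⊥ := by
    rw [← le_bot_iff]
    have h1 : ⨅ n, p n ≤ (⨆ k, e k) \ ⨆ k, e k := by
      rw [sdiff_eq, compl_iSup]
      refine le_inf ((iInf_le _ 0).trans sdiff_le) (le_iInf fun k => ?_)
      refine (iInf_le _ (k + 1)).trans ?_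
      show (⨆ k, e k) \ (Finset.range (k + 1)).sup e ≤ (e k)ᶜ
      rw [sdiff_eq]
      exact inf_le_right.trans (compl_le_compl (Finset.le_sup (Finset.self_mem_range_succ k)))
    rwa [sdiff_self] at h1
  have h1 := hm.cont p hanti hinf
  have h2 : ∀ n, m ((Finset.range n).sup e) ≤ T := by
    intro n
    have h3 : m ((Finset.range n).sup e) ≤ ∑ k ∈ Finset.range n, t k := by
      induction n with
      | zero => simp [hm.bot]
      | succ n ih =>
        rw [Finset.range_add_one, Finset.sup_insert, Finset.sum_insert (by simp)]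
        exact (hm.sub _ _).trans (add_le_add (ht n) ih)
    exact h3.trans (sum_le_hasSum _ (fun k _ => (hnn _).trans (ht k)) hT)
  have h3 : ∀ n, m (⨆ k, e k) ≤ T + m (p n) := by
    intro n
    have h4 : ⨆ k, e k ≤ (Finset.range n).sup e ⊔ p n := by
      show _ ≤ (Finset.range n).sup e ⊔ ((⨆ k, e k) \ (Finset.range n).sup e)
      rw [sup_sdiff_self_right]
      exact le_sup_right
    exact ((hm.mono _ _ h4).trans (hm.sub _ _)).trans (add_le_add_left (h2 n) _)
  have h5 : Tendsto (fun n => T + m (p n)) atTop (𝓝 (T + 0)) := h1.const_add T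
  rw [add_zero] at h5
  exact ge_of_tendsto' h5 h3

theorem cpart_pos {m : B → ℝ} (hm : IsContinuousOuterMeasure m) {ν : B → ℝ} (h0 : ∀ b, 0 ≤ ν b)
    (hadd : ∀ a b, Disjoint a b → ν (a ⊔ b) = ν a + ν b) (hpos : ∀ b, b ≠ ⊥ → 0 < ν b) (a : B)
    (ha : a ≠ ⊥) : 0 < cpart ν a := by
  by_contra hcon
  have hz : cpart ν a = 0 := le_antisymm (not_lt.1 hcon) (cpart_nonneg h0 a)
  have h1 : ∀ k : ℕ, ∃ t ∈ bnd ν a, t < cpart ν a + (1 / 2) ^ k := fun k =>
    exists_bnd _ (by positivity)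
  choose t ht1 ht2 using h1
  choose s hs1 hs2 hs3 using ht1
  have hma := hm.pos a ha
  have h2 : ∀ k : ℕ, ∃ n, m (a \ s k n) < m a / 4 * (1 / 2) ^ k := by
    intro k
    have h3 := hm.cont (fun n => a \ s k n) (fun n => sdiff_le_sdiff_left (hs1 k (Nat.le_succ n)))
      (by
        rw [← le_bot_iff]
        have h4 : ⨅ n, a \ s k n ≤ a \ ⨆ n, s k n := by
          rw [sdiff_eq, compl_iSup]
          refine le_inf ((iInf_le _ 0).trans sdiff_le) (le_iInf fun n => ?_)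
          refine (iInf_le _ n).trans ?_
          rw [sdiff_eq]
          exact inf_le_right
        rw [hs2 k, sdiff_self] at h4
        exact h4)
    exact ((tendsto_order.1 h3).2 _ (by positivity)).exists
  choose n hn using h2
  have h3 : m (⨆ k, a \ s k (n k)) ≤ m a / 4 * 2 :=
    m_iSup_le hm _ (fun k => (hn k).le) (hasSum_geometric_two.mul_left _)
  let b : B := a \ ⨆ k, a \ s k (n k)
  have hb : b ≠ ⊥ := by
    intro hb
    have h4 : a ≤ ⨆ k, a \ s k (n k) := sdiff_eq_bot_iff.1 hb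
    have h5 := hm.mono _ _ h4
    linarith
  have hbs : ∀ k, b ≤ s k (n k) := by
    intro k
    have h4 : b ≤ a \ (a \ s k (n k)) :=
      sdiff_le_sdiff_left (le_iSup (fun k => a \ s k (n k)) k)
    rw [sdiff_sdiff_right_self] at h4
    exact h4.trans inf_le_right
  have h5 : ∀ k : ℕ, ν b ≤ (1 / 2 : ℝ) ^ k := by
    intro k
    have h6 := (charge_mono h0 hadd (hbs k)).trans (hs3 k (n k))
    have h7 := ht2 k
    rw [hz, zero_add] at h7
    exact h6.trans h7.le
  have h6 : Tendsto (fun k : ℕ => (1 / 2 : ℝ) ^ k) atTop (𝓝 0) :=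
    tendsto_pow_atTop_nhds_zero_of_lt_one (by norm_num) (by norm_num)
  have h7 := ge_of_tendsto' h6 h5
  have := hpos b hb
  linarith

/-- **Main theorem.** -/
theorem main {m : B → ℝ} (hm : IsContinuousOuterMeasure m)
    (h : ∀ C : Set B, IsCountablyGenerated C → ∃ μ : C → ℝ, IsMeasureOn C μ) :
    ∃ μ : ↥(Set.univ : Set B) → ℝ, IsMeasureOn Set.univ μ := by
  obtain ⟨ν, h0, hadd, hpos⟩ := exists_charge hm.isSub (unifExh hm h) hm.pos
  refine ⟨fun a => cpart ν a, fun a => cpart_nonneg h0 _, fun a ha => cpart_pos hm h0 hadd hpos _ ha,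
    fun a b hab hb => ?_⟩
  show HasSum (fun n => cpart ν (a n : B)) (cpart ν (b : B))
  rw [hb]
  exact cpart_hasSum h0 hadd hab

end Pool.Agent.X223.KR
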