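import Pool.Agent.X223.KR.Core

/-!
Positive intersection numbers and Kelley's theorem.
-/

set_option autoImplicit false

namespace Pool.Agent.X223.KR

open Finset

variable {B : Type*} [BooleanAlgebra B]

/-- Positive intersection number. -/
def PosInt (A : Set B) (δ : ℝ) : Prop :=
  ∀ (κ : Type) [Fintype κ] [Nonempty κ] (a : κ → B), (∀ i, a i ∈ A) →
    ∃ I : Finset κ, δ * Fintype.card κ ≤ I.card ∧ I.inf a ≠ ⊥

theorem posInt {μ : B → ℝ} (hμ : IsSub μ) (hu : UnifExh μ) {ε : ℝ} (hε : 0 < ε) :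
    ∃ δ : ℝ, 0 < δ ∧ PosInt {a : B | ε ≤ μ a} δ := by
  classical
  obtain ⟨r, hr⟩ := hu (ε / 3) (by positivity)
  rcases r with _ | r
  · obtain ⟨i, -⟩ := hr (fun i => i.elim0) (fun i => i.elim0)
    exact i.elim0
  refine ⟨1 / (72 * (r + 1) ^ 2), by positivity, ?_⟩
  intro κ _ _ a ha
  set n := Fintype.card κ with hn
  have hn1 : 0 < n := Fintype.card_pos
  set t := 72 * (r + 1) ^ 2 with ht
  have ht0 : 0 < t := by positivity
  let e : Fin (n * t) ≃ κ × Fin t := finProdFinEquiv.symm.trans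
    (Equiv.prodCongr (Fintype.equivFin κ).symm (Equiv.refl _))
  obtain ⟨E, hE, hE'⟩ := kr_core (ε := ε) hμ hr (m := n * t) (l := 36 * (r + 1) * n) (k := n)
    (by positivity) (by rw [ht]; apply le_of_eq; ring) (Nat.le_mul_of_pos_right n ht0)
    (by
      rw [ht]
      have : r * (36 * (r + 1) * n) ≤ (r + 1) * (36 * (r + 1) * n) :=
        Nat.mul_le_mul_right _ (by omega)
      have h2 : (r + 1) * (36 * (r + 1) * n) < n * (72 * (r + 1) ^ 2) := by
        have : 0 < (r + 1) ^ 2 * n := by positivity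
        nlinarith
      omega)
    (fun x => a (e x).1) (fun x => ha _)
  refine ⟨E.image fun x => (e x).1, ?_, ?_⟩
  · have h1 : E.card ≤ t * (E.image fun x => (e x).1).card := by
      refine Finset.card_le_mul_card_image _ _ fun i _ => ?_
      calc (E.filter fun x => (e x).1 = i).card
          ≤ (univ : Finset (Fin t)).card := by
            refine Finset.card_le_card_of_injOn (fun x => (e x).2) (fun _ _ => mem_univ _) ?_
            intro x hx y hy hxy
            rw [Finset.mem_coe, Finset.mem_filter] at hx hy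
            apply e.injective
            exact Prod.ext (hx.2.trans hy.2.symm) hxy
        _ = t := by simp
    have h2 : n ≤ t * (E.image fun x => (e x).1).card := hE.le.trans h1
    have h3 : (n : ℝ) ≤ t * ((E.image fun x => (e x).1).card : ℝ) := by exact_mod_cast h2
    have h4 : (t : ℝ) = 72 * ((r : ℝ) + 1) ^ 2 := by
      rw [ht]
      push_cast
      ring
    rw [h4] at h3
    rw [one_div, inv_mul_le_iff₀ (by positivity)]
    exact h3
  · rw [Finset.inf_image]
    exact hE'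

/-- The space of prime ideals. -/
def Sp (B : Type*) [BooleanAlgebra B] : Type _ := {I : Order.Ideal B // I.IsPrime}

/-- A point at which an element does not vanish. -/
theorem exists_pt {b : B} (hb : b ≠ ⊥) : ∃ x : Sp B, b ∉ x.1 := by
  obtain ⟨J, hJ, h1, h2⟩ := DistribLattice.prime_ideal_of_disjoint_filter_ideal
    (F := Order.PFilter.principal b) (I := Order.Ideal.principal (⊥ : B)) (by
      rw [Set.disjoint_left]
      intro y hy hy'
      have h1 : b ≤ y := hy
      have h2 : y ≤ ⊥ := hy'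
      exact hb (le_bot_iff.1 (h1.trans h2)))
  exact ⟨⟨J, hJ⟩, fun h => Set.disjoint_left.1 h2 (show b ∈ Order.PFilter.principal b from le_refl b) h⟩

theorem mem_sup {x : Sp B} {a b : B} : a ⊔ b ∈ x.1 ↔ a ∈ x.1 ∧ b ∈ x.1 :=
  Order.Ideal.sup_mem_iff

theorem mem_inf {x : Sp B} {a b : B} : a ⊓ b ∈ x.1 ↔ a ∈ x.1 ∨ b ∈ x.1 := by
  constructor
  · exact x.2.mem_or_mem
  · rintro (h | h)
    · exact x.1.lower inf_le_left h
    · exact x.1.lower inf_le_right h

theorem bot_mem (x : Sp B) : ⊥ ∈ x.1 := x.1.bot_mem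

open Classical in
/-- The characteristic function. -/
noncomputable def ch (b : B) (x : Sp B) : ℝ := if b ∈ x.1 then 0 else 1

theorem ch_nonneg (b : B) (x : Sp B) : 0 ≤ ch b x := by
  unfold ch
  split_ifs <;> norm_num

theorem ch_le_one (b : B) (x : Sp B) : ch b x ≤ 1 := by
  unfold ch
  split_ifs <;> norm_num

theorem ch_sup {a b : B} (h : Disjoint a b) (x : Sp B) : ch (a ⊔ b) x = ch a x + ch b x := by
  have h1 : a ∈ x.1 ∨ b ∈ x.1 := by
    rw [← mem_inf, h.eq_bot]
    exact bot_mem x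
  unfold ch
  rw [mem_sup]
  by_cases ha : a ∈ x.1 <;> by_cases hb : b ∈ x.1
  · simp [ha, hb]
  · simp [ha, hb]
  · simp [ha, hb]
  · exact absurd h1 (by tauto)

theorem ch_bot (x : Sp B) : ch (⊥ : B) x = 0 := by
  unfold ch
  rw [if_pos (bot_mem x)]

instance : TopologicalSpace (Sp B) := ⊥

instance : DiscreteTopology (Sp B) := ⟨rfl⟩

open BoundedContinuousFunction in
/-- The characteristic function as a bounded function. -/
noncomputable def chb (b : B) : Sp B →ᵇ ℝ :=
  BoundedContinuousFunction.ofNormedAddCommGroupDiscrete (ch b) 1 fun x => by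
    rw [Real.norm_eq_abs, abs_of_nonneg (ch_nonneg b x)]
    exact ch_le_one b x

theorem chb_apply (b : B) (x : Sp B) : chb b x = ch b x := rfl

open BoundedContinuousFunction

/-- The functions bounded by a number smaller than `δ`. -/
def low (B : Type*) [BooleanAlgebra B] (δ : ℝ) : Set (Sp B →ᵇ ℝ) :=
  {g | ∃ c, c < δ ∧ ∀ x, g x ≤ c}

theorem low_convex (δ : ℝ) : Convex ℝ (low B δ) := by
  rintro g ⟨c, hc, hg⟩ g' ⟨c', hc', hg'⟩ s t hs ht hst
  refine ⟨max c c', max_lt hc hc', fun x => ?_⟩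
  show s * g x + t * g' x ≤ max c c'
  have h1 : s * g x ≤ s * max c c' :=
    mul_le_mul_of_nonneg_left ((hg x).trans (le_max_left _ _)) hs
  have h2 : t * g' x ≤ t * max c c' :=
    mul_le_mul_of_nonneg_left ((hg' x).trans (le_max_right _ _)) ht
  calc s * g x + t * g' x ≤ s * max c c' + t * max c c' := add_le_add h1 h2
    _ = (s + t) * max c c' := by ring
    _ = max c c' := by rw [hst, one_mul]

theorem low_open (δ : ℝ) : IsOpen (low B δ) := by
  rw [Metric.isOpen_iff]
  rintro g ⟨c, hc, hg⟩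
  refine ⟨(δ - c) / 2, by linarith, ?_⟩
  intro g' hg'
  refine ⟨c + (δ - c) / 2, by linarith, fun x => ?_⟩
  rw [Metric.mem_ball] at hg'
  have h1 := BoundedContinuousFunction.dist_coe_le_dist (f := g') (g := g) x
  have h2 : g' x - g x ≤ dist (g' x) (g x) := by
    rw [Real.dist_eq]
    exact le_abs_self _
  have := hg x
  linarith

theorem low_disjoint {A : Set B} {δ : ℝ} (h : PosInt A δ) :
    Disjoint (low B δ) (convexHull ℝ (chb '' A)) := by
  classical
  rw [Set.disjoint_left]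
  rintro g ⟨c, hc, hg⟩ hg'
  rw [mem_convexHull_iff_exists_fintype] at hg'
  obtain ⟨ι, _, w, z, hw0, hw1, hz, hgz⟩ := hg'
  choose a ha haz using hz
  obtain ⟨N, hN⟩ := exists_nat_gt ((Fintype.card ι : ℝ) / (δ - c))
  have hδc : 0 < δ - c := by linarith
  have hN0 : (0 : ℝ) < N := lt_of_le_of_lt (by positivity) hN
  let n : ι → ℕ := fun i => ⌈N * w i⌉₊
  have hn1 : ∀ i, N * w i ≤ n i := fun i => Nat.le_ceil _
  have hn2 : ∀ i, (n i : ℝ) ≤ N * w i + 1 := fun i =>
    (Nat.ceil_lt_add_one (mul_nonneg hN0.le (hw0 i))).le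
  have hsum : (N : ℝ) ≤ ∑ i, (n i : ℝ) := by
    calc (N : ℝ) = ∑ i, N * w i := by rw [← Finset.mul_sum, hw1, mul_one]
      _ ≤ _ := Finset.sum_le_sum fun i _ => hn1 i
  have hcardκ : (Fintype.card (Σ i : ι, Fin (n i)) : ℝ) = ∑ i, (n i : ℝ) := by
    rw [Fintype.card_sigma]
    push_cast
    exact Finset.sum_congr rfl fun i _ => by rw [Fintype.card_fin]
  have hne : Nonempty (Σ i : ι, Fin (n i)) := by
    rw [← Fintype.card_pos_iff]
    have : (0 : ℝ) < Fintype.card (Σ i : ι, Fin (n i)) := by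
      rw [hcardκ]
      linarith
    exact_mod_cast this
  obtain ⟨I, hI1, hI2⟩ := h (Σ i : ι, Fin (n i)) (fun p => a p.1) fun p => ha p.1
  obtain ⟨x, hx⟩ := exists_pt hI2
  let J := I.image Sigma.fst
  have hJ : ∀ i ∈ J, a i ∉ x.1 := by
    intro i hi h'
    rw [Finset.mem_image] at hi
    obtain ⟨p, hp, rfl⟩ := hi
    exact hx (x.1.lower (Finset.inf_le (f := fun p : (Σ i : ι, Fin (n i)) => a p.1) hp) h')
  have hcardI : (I.card : ℝ) ≤ ∑ i ∈ J, (n i : ℝ) := by
    have h1 : I.card ≤ ∑ i ∈ J, n i := by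
      rw [Finset.card_eq_sum_card_image Sigma.fst I]
      refine Finset.sum_le_sum fun i _ => ?_
      calc (I.filter fun p => p.1 = i).card
          ≤ ((univ : Finset (Fin (n i))).image fun j => (⟨i, j⟩ : Σ i : ι, Fin (n i))).card := by
            refine Finset.card_le_card ?_
            rintro ⟨i', j⟩ hp
            rw [Finset.mem_filter] at hp
            obtain ⟨-, rfl⟩ := hp
            exact Finset.mem_image_of_mem _ (mem_univ j)
        _ ≤ (univ : Finset (Fin (n i))).card := Finset.card_image_le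
        _ = n i := by simp
    exact_mod_cast h1
  have hJsum : ∑ i ∈ J, (n i : ℝ) ≤ N * ∑ i ∈ J, w i + Fintype.card ι := by
    calc ∑ i ∈ J, (n i : ℝ) ≤ ∑ i ∈ J, (N * w i + 1) := Finset.sum_le_sum fun i _ => hn2 i
      _ = N * ∑ i ∈ J, w i + J.card := by
        rw [Finset.sum_add_distrib, ← Finset.mul_sum]
        simp
      _ ≤ _ := by
        gcongr
        exact Finset.card_le_univ J
  have hgx : ∑ i ∈ J, w i ≤ g x := by
    have h1 : g x = ∑ i, w i * ch (a i) x := by
      rw [← hgz]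
      simp only [BoundedContinuousFunction.coe_sum, Finset.sum_apply, ← haz]
      rfl
    rw [h1]
    calc ∑ i ∈ J, w i = ∑ i ∈ J, w i * ch (a i) x := by
          refine Finset.sum_congr rfl fun i hi => ?_
          unfold ch
          rw [if_neg (hJ i hi), mul_one]
      _ ≤ _ := Finset.sum_le_sum_of_subset_of_nonneg (Finset.subset_univ J) fun i _ _ =>
          mul_nonneg (hw0 i) (ch_nonneg _ _)
  have hgc := hg x
  rw [hcardκ] at hI1
  rw [div_lt_iff₀ hδc] at hN
  by_cases hδ : 0 ≤ δ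
  · have h1 : δ * N ≤ δ * ∑ i, (n i : ℝ) := mul_le_mul_of_nonneg_left hsum hδ
    have h2 : (N : ℝ) * ∑ i ∈ J, w i ≤ N * c :=
      mul_le_mul_of_nonneg_left (hgx.trans hgc) hN0.le
    nlinarith
  · have h3 : 0 ≤ ∑ i ∈ J, w i := Finset.sum_nonneg fun i _ => hw0 i
    linarith

/-- **Kelley's theorem**, finite form. -/
theorem kelley {A : Set B} {δ : ℝ} (hδ : 0 < δ) (h : PosInt A δ) :
    ∃ ν : B → ℝ, (∀ b, 0 ≤ ν b) ∧ (∀ a b, Disjoint a b → ν (a ⊔ b) = ν a + ν b) ∧
      (∀ b, ν b ≤ 1) ∧ ∀ a ∈ A, δ ≤ ν a := by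
  by_cases hA : A.Nonempty
  · obtain ⟨a₀, ha₀⟩ := hA
    obtain ⟨f, u, h1, h2⟩ := geometric_hahn_banach_open (low_convex (B := B) δ) (low_open δ)
      (convex_convexHull ℝ (chb '' A)) (low_disjoint h)
    have hpos : ∀ g : Sp B →ᵇ ℝ, (∀ x, 0 ≤ g x) → 0 ≤ f g := by
      intro g hg
      by_contra hneg
      push Not at hneg
      obtain ⟨N, hN⟩ := exists_nat_gt (u / (-f g))
      have h3 : (-(N : ℝ)) • g ∈ low B δ := by
        refine ⟨0, hδ, fun x => ?_⟩
        show -(N : ℝ) * g x ≤ 0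
        have := mul_nonneg (Nat.cast_nonneg (α := ℝ) N) (hg x)
        linarith
      have h4 := h1 _ h3
      rw [map_smul, smul_eq_mul] at h4
      rw [div_lt_iff₀ (by linarith)] at hN
      linarith
    have hu : 0 < u := by
      have h3 := h1 0 ⟨0, hδ, fun x => le_refl _⟩
      rwa [map_zero] at h3
    have hmono : ∀ g g' : Sp B →ᵇ ℝ, (∀ x, g x ≤ g' x) → f g ≤ f g' := by
      intro g g' hgg
      have := hpos (g' - g) fun x => sub_nonneg.2 (hgg x)
      rw [map_sub] at this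
      linarith
    have hAf : ∀ a ∈ A, u ≤ f (chb a) := fun a ha =>
      h2 _ (subset_convexHull ℝ _ (Set.mem_image_of_mem _ ha))
    have hκ : 0 < f 1 := by
      have h3 := hmono (chb a₀) 1 fun x => ch_le_one a₀ x
      have h4 := hAf a₀ ha₀
      linarith
    have hδu : δ * f 1 ≤ u := by
      by_contra hcon
      push Not at hcon
      have h3 : (u / f 1) • (1 : Sp B →ᵇ ℝ) ∈ low B δ := by
        refine ⟨u / f 1, (div_lt_iff₀ hκ).2 hcon, fun x => ?_⟩
        show u / f 1 * 1 ≤ u / f 1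
        rw [mul_one]
      have h4 := h1 _ h3
      rw [map_smul, smul_eq_mul, div_mul_cancel₀ _ hκ.ne'] at h4
      exact lt_irrefl _ h4
    refine ⟨fun b => f (chb b) / f 1, fun b => ?_, fun a b hab => ?_, fun b => ?_, fun a ha => ?_⟩
    · exact div_nonneg (hpos _ fun x => ch_nonneg b x) hκ.le
    · have h3 : chb (a ⊔ b) = chb a + chb b := by
        ext x
        exact ch_sup hab x
      show f (chb (a ⊔ b)) / f 1 = f (chb a) / f 1 + f (chb b) / f 1
      rw [h3, map_add, add_div]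
    · rw [div_le_one hκ]
      exact hmono (chb b) 1 fun x => ch_le_one b x
    · rw [le_div_iff₀ hκ]
      exact hδu.trans (hAf a ha)
  · refine ⟨fun _ => 0, fun _ => le_rfl, fun _ _ _ => by simp, fun _ => zero_le_one, ?_⟩
    intro a ha
    exact absurd ⟨a, ha⟩ hA

/-- **The theorem of Kalton and Roberts**, first part: a strictly positive uniformly exhaustive
submeasure yields a strictly positive finitely additive functional. -/
theorem exists_charge {μ : B → ℝ} (hμ : IsSub μ) (hu : UnifExh μ) (hpos : ∀ b, b ≠ ⊥ → 0 < μ b) :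
    ∃ ν : B → ℝ, (∀ b, 0 ≤ ν b) ∧ (∀ a b, Disjoint a b → ν (a ⊔ b) = ν a + ν b) ∧
      (∀ b, b ≠ ⊥ → 0 < ν b) := by
  have key : ∀ n : ℕ, ∃ ν : B → ℝ, (∀ b, 0 ≤ ν b) ∧
      (∀ a b, Disjoint a b → ν (a ⊔ b) = ν a + ν b) ∧
      (∀ b, ν b ≤ 1) ∧ ∀ a, 1 / ((n : ℝ) + 1) ≤ μ a → 0 < ν a := by
    intro n
    obtain ⟨δ, hδ, h⟩ := posInt hμ hu (ε := 1 / ((n : ℝ) + 1)) (by positivity)
    obtain ⟨ν, h1, h2, h3, h4⟩ := kelley hδ h
    exact ⟨ν, h1, h2, h3, fun a ha => hδ.trans_le (h4 a ha)⟩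
  choose ν h1 h2 h3 h4 using key
  have hs : ∀ b, Summable fun n : ℕ => (1 / 2 : ℝ) ^ n * ν n b := by
    intro b
    refine Summable.of_nonneg_of_le (fun n => mul_nonneg (by positivity) (h1 n b)) (fun n => ?_)
      (summable_geometric_of_lt_one (by norm_num) (by norm_num : (1 / 2 : ℝ) < 1))
    calc (1 / 2 : ℝ) ^ n * ν n b ≤ (1 / 2 : ℝ) ^ n * 1 := by
          gcongr
          exact h3 n b
      _ = _ := mul_one _
  refine ⟨fun b => ∑' n : ℕ, (1 / 2 : ℝ) ^ n * ν n b, fun b => ?_, fun a b hab => ?_, fun b hb => ?_⟩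
  · exact tsum_nonneg fun n => mul_nonneg (by positivity) (h1 n b)
  · rw [← (hs a).tsum_add (hs b)]
    refine tsum_congr fun n => ?_
    rw [h2 n a b hab, mul_add]
  · obtain ⟨n, hn⟩ := exists_nat_one_div_lt (hpos b hb)
    have h5 : 0 < (1 / 2 : ℝ) ^ n * ν n b := mul_pos (by positivity) (h4 n b hn.le)
    exact (hs b).tsum_pos (fun m => mul_nonneg (by positivity) (h1 m b)) n h5

end Pool.Agent.X223.KR
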